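import Mathlib

namespace Pool.Agent.Results.MP_74392e_co.Example

/-- Every vertex has degree `k` and every edge lies in exactly `t` triangles. -/
def KT {V : Type} (G : SimpleGraph V) (k t : ℕ) : Prop :=
  (∀ v, (G.neighborSet v).encard = k) ∧
    ∀ u v, G.Adj u v → (G.neighborSet u ∩ G.neighborSet v).encard = t

/-- `K_{3,3,3}`. -/
def A : SimpleGraph (Fin 9) where
  Adj x y := x.val % 3 ≠ y.val % 3
  symm := ⟨fun _ _ h => h.symm⟩
  loopless := ⟨fun _ h => h rfl⟩

instance : DecidableRel A.Adj := fun x y => inferInstanceAs (Decidable (x.val % 3 ≠ y.val % 3))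

def pr (x : Fin 10) : ℕ := [3, 5, 9, 17, 6, 10, 18, 12, 20, 24].getD x.val 0

/-- The Johnson graph `J(5,2)`, with 2-subsets written as bit masks. -/
def B : SimpleGraph (Fin 10) where
  Adj x y := x ≠ y ∧ pr x &&& pr y ≠ 0
  symm := ⟨fun _ _ h => ⟨h.1.symm, by rw [Nat.and_comm]; exact h.2⟩⟩
  loopless := ⟨fun _ h => h.1 rfl⟩

instance : DecidableRel B.Adj := fun x y => inferInstanceAs (Decidable (x ≠ y ∧ pr x &&& pr y ≠ 0))

lemma KT_of {n : ℕ} (G : SimpleGraph (Fin n)) [DecidableRel G.Adj] (k t : ℕ)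
    (h1 : ∀ v, (Finset.univ.filter (fun w => G.Adj v w)).card = k)
    (h2 : ∀ u v, G.Adj u v → (Finset.univ.filter (fun w => G.Adj u w ∧ G.Adj v w)).card = t) :
    KT G k t := by
  refine ⟨fun v => ?_, fun u v h => ?_⟩
  · rw [← h1 v, ← Set.encard_coe_eq_coe_finsetCard]
    congr 1
    ext w
    simp
  · rw [← h2 u v h, ← Set.encard_coe_eq_coe_finsetCard]
    congr 1
    ext w
    simp

lemma conn_of {n : ℕ} (G : SimpleGraph (Fin (n + 1)))
    (h : ∀ u v, u = v ∨ G.Adj u v ∨ ∃ w, G.Adj u w ∧ G.Adj w v) : G.Connected := by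
  refine ⟨fun u v => ?_⟩
  rcases h u v with rfl | h | ⟨w, h1, h2⟩
  · rfl
  · exact h.reachable
  · exact h1.reachable.trans h2.reachable

section fin
variable {V : Type} {G : SimpleGraph V} (h : KT G 6 3)
include h

lemma nfin (v : V) : (G.neighborSet v).Finite :=
  Set.finite_of_encard_eq_coe (h.1 v)

lemma ncard6 (v : V) : (G.neighborSet v).ncard = 6 := by
  simp [Set.ncard, h.1 v]

lemma ncard3 {u v : V} (huv : G.Adj u v) : (G.neighborSet u ∩ G.neighborSet v).ncard = 3 := by
  simp [Set.ncard, h.2 u v huv]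

/-- Two vertices at distance two have at least three common neighbours. -/
lemma mu {x y z : V} (hxz : G.Adj x z) (hzy : G.Adj z y) (hne : x ≠ y) (hn : ¬ G.Adj x y) :
    3 ≤ (G.neighborSet x ∩ G.neighborSet y).ncard := by
  set P := G.neighborSet z ∩ G.neighborSet x with hP
  set Q := G.neighborSet z ∩ G.neighborSet y with hQ
  have fP : P.Finite := (nfin h z).inter_of_left _
  have fQ : Q.Finite := (nfin h z).inter_of_left _
  have cP : P.ncard = 3 := ncard3 h hxz.symm
  have cQ : Q.ncard = 3 := ncard3 h hzy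
  have hx : x ∉ insert y (P ∪ Q) := by
    rintro (h1 | h1 | h1)
    · exact hne h1
    · exact G.irrefl h1.2
    · exact hn (G.adj_symm h1.2)
  have hy : y ∉ P ∪ Q := by
    rintro (h1 | h1)
    · exact hn h1.2
    · exact G.irrefl h1.2
  have hsub : insert x (insert y (P ∪ Q)) ⊆ G.neighborSet z := by
    rintro w (rfl | rfl | h1 | h1)
    · exact hxz.symm
    · exact hzy
    · exact h1.1
    · exact h1.1
  have h1 := Set.ncard_le_ncard hsub (nfin h z)
  rw [Set.ncard_insert_of_notMem hx ((fP.union fQ).insert _),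
    Set.ncard_insert_of_notMem hy (fP.union fQ), ncard6 h] at h1
  have h2 := Set.ncard_union_add_ncard_inter P Q fP fQ
  have hz : z ∉ P ∩ Q := fun h1 => G.irrefl h1.1.1
  have hsub2 : insert z (P ∩ Q) ⊆ G.neighborSet x ∩ G.neighborSet y := by
    rintro w (rfl | h1)
    · exact ⟨hxz, hzy.symm⟩
    · exact ⟨h1.1.2, h1.2.2⟩
  have h3 := Set.ncard_le_ncard hsub2 ((nfin h x).inter_of_left _)
  rw [Set.ncard_insert_of_notMem hz (fP.inter_of_left _)] at h3
  omega

lemma step {x y w : V} (hxy : x = y ∨ G.Adj x y ∨ ∃ z, G.Adj x z ∧ G.Adj z y) (hyw : G.Adj y w) :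
    x = w ∨ G.Adj x w ∨ ∃ z, G.Adj x z ∧ G.Adj z w := by
  by_contra hc
  push Not at hc
  obtain ⟨c1, c2, c3⟩ := hc
  have hne : x ≠ y := fun e => c2 (e ▸ hyw)
  have hn : ¬ G.Adj x y := fun e => c3 y e hyw
  obtain ⟨z, hxz, hzy⟩ := (hxy.resolve_left hne).resolve_left hn
  have h1 := mu h hxz hzy hne hn
  have h2 := ncard3 h hyw
  set P := G.neighborSet x ∩ G.neighborSet y with hP
  set Q := G.neighborSet y ∩ G.neighborSet w with hQ
  have fP : P.Finite := (nfin h x).inter_of_left _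
  have fQ : Q.Finite := (nfin h y).inter_of_left _
  have hd : Disjoint P Q := Set.disjoint_left.2 fun a ha hb => c3 a ha.1 (G.adj_symm hb.2)
  have hw : w ∉ P ∪ Q := by
    rintro (h1 | h1)
    · exact c2 h1.1
    · exact G.irrefl h1.2
  have hsub : insert w (P ∪ Q) ⊆ G.neighborSet y := by
    rintro a (rfl | h1 | h1)
    · exact hyw
    · exact h1.2
    · exact h1.1
  have h3 := Set.ncard_le_ncard hsub (nfin h y)
  rw [Set.ncard_insert_of_notMem hw (fP.union fQ), Set.ncard_union_eq hd fP fQ, ncard6 h] at h3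
  omega

lemma finite_of (hc : G.Connected) : Finite V := by
  obtain ⟨x⟩ := hc.nonempty
  have key : ∀ y, x = y ∨ G.Adj x y ∨ ∃ z, G.Adj x z ∧ G.Adj z y := by
    intro y
    have := (SimpleGraph.reachable_iff_reflTransGen x y).1 (hc.preconnected x y)
    induction this with
    | refl => exact Or.inl rfl
    | tail _ h2 ih => exact step h ih h2
  have : (insert x (G.neighborSet x ∪ ⋃ z ∈ G.neighborSet x, G.neighborSet z)).Finite :=
    ((nfin h x).union ((nfin h x).biUnion fun z _ => nfin h z)).insert x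
  refine Set.finite_univ_iff.1 (this.subset fun y _ => ?_)
  rcases key y with rfl | h1 | ⟨z, h1, h2⟩
  · exact Or.inl rfl
  · exact Or.inr (Or.inl h1)
  · exact Or.inr (Or.inr (Set.mem_biUnion h1 h2))

end fin

theorem result : ∃ k t : ℕ, 1 ≤ k ∧
    (∃ (V₁ V₂ : Type) (G₁ : SimpleGraph V₁) (G₂ : SimpleGraph V₂),
      G₁.Connected ∧ G₂.Connected ∧ KT G₁ k t ∧ KT G₂ k t ∧ IsEmpty (G₁ ≃g G₂)) ∧
    ∀ (V : Type) (G : SimpleGraph V), G.Connected → KT G k t → Finite V := by
  refine ⟨6, 3, by norm_num, ⟨Fin 9, Fin 10, A, B, conn_of A (by decide +kernel),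
    conn_of B (by decide +kernel), KT_of A 6 3 (by decide +kernel) (by decide +kernel),
    KT_of B 6 3 (by decide +kernel) (by decide +kernel), ⟨fun e => ?_⟩⟩,
    fun V G hc h => finite_of h hc⟩
  have := Fintype.card_congr e.toEquiv
  simp at this

end Pool.Agent.Results.MP_74392e_co.Example
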